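import Mathlib

/-!
# Completely syndetic sets and minimal closed right ideals of `βG`
-/

namespace Q102.CS

open Filter

attribute [local instance] Ultrafilter.mul Ultrafilter.semigroup

variable {G : Type*} [Group G]

/-- `A` is `n`-syndetic: there is a finite `F ⊆ G` such that every `S ⊆ G` with at most `n` elements
satisfies `S ⊆ f A` for some `f ∈ F`. -/
def NSyndetic (n : ℕ) (A : Set G) : Prop :=
  ∃ F : Finset G, ∀ S : Finset G, S.card ≤ n → ∃ f ∈ F, (S : Set G) ⊆ (fun a => f * a) '' A

/-- `A` is completely syndetic: `n`-syndetic for every `n ≥ 1`. -/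
def CompletelySyndetic (A : Set G) : Prop := ∀ n : ℕ, 1 ≤ n → NSyndetic n A

/-- A closed right ideal of `βG`: a nonempty closed `R ⊆ βG` with `R βG ⊆ R`. -/
def IsClosedRightIdeal (R : Set (Ultrafilter G)) : Prop :=
  R.Nonempty ∧ IsClosed R ∧ ∀ p ∈ R, ∀ q : Ultrafilter G, p * q ∈ R

/-- A minimal closed right ideal of `βG`: a closed right ideal that contains no strictly smaller
closed right ideal. -/
def IsMinimalClosedRightIdeal (R : Set (Ultrafilter G)) : Prop :=
  IsClosedRightIdeal R ∧ ∀ R' : Set (Ultrafilter G), IsClosedRightIdeal R' → R' ⊆ R → R' = R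

theorem mem_mul_iff (p q : Ultrafilter G) (A : Set G) :
    A ∈ p * q ↔ {g : G | {h : G | g * h ∈ A} ∈ q} ∈ p := Iff.rfl

theorem nsyndetic_iff (n : ℕ) (A : Set G) :
    NSyndetic n A ↔ ∃ F : Finset G, ∀ S : Finset G, S.card ≤ n →
      ∃ f ∈ F, ∀ s ∈ S, f⁻¹ * s ∈ A := by
  unfold NSyndetic
  constructor
  · rintro ⟨F, hF⟩
    refine ⟨F, fun S hS => ?_⟩
    obtain ⟨f, hf, h⟩ := hF S hS
    refine ⟨f, hf, fun s hs => ?_⟩
    obtain ⟨a, ha, rfl⟩ := h hs
    simpa using ha
  · rintro ⟨F, hF⟩
    refine ⟨F, fun S hS => ?_⟩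
    obtain ⟨f, hf, h⟩ := hF S hS
    exact ⟨f, hf, fun s hs => ⟨f⁻¹ * s, h s hs, by group⟩⟩

/-- The finite intersection property behind the Kennedy-Raum-Salomon characterisation. -/
theorem fip {A : Set G} (hA : CompletelySyndetic A) (Q : Finset (Ultrafilter G)) :
    ∃ g : G, ∀ q ∈ Q, {h : G | g * h ∈ A} ∈ q := by
  classical
  obtain ⟨F, hF⟩ := (nsyndetic_iff _ A).1 (hA (Q.card + 1) (by omega))
  by_contra hcon
  push Not at hcon
  choose i hiQ hi using hcon
  -- for each `q`, the set of `h` with `f⁻¹ h ∉ A` for all `f ∈ F` with `i f⁻¹ = q`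
  have key : ∀ q : Ultrafilter G, ∃ h : G, ∀ f ∈ F, i f⁻¹ = q → f⁻¹ * h ∉ A := by
    intro q
    have h1 : (⋂ f ∈ F.filter (fun f => i f⁻¹ = q), {h : G | f⁻¹ * h ∉ A}) ∈ q := by
      rw [← Ultrafilter.mem_coe, Filter.biInter_finset_mem]
      intro f hf
      rw [Finset.mem_filter] at hf
      rw [Ultrafilter.mem_coe]
      have h2 := hi f⁻¹
      rw [hf.2] at h2
      have h3 := (Ultrafilter.compl_mem_iff_notMem (f := q) (s := {h : G | f⁻¹ * h ∈ A})).2 h2
      exact h3
    obtain ⟨h, hh⟩ := Ultrafilter.nonempty_of_mem h1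
    refine ⟨h, fun f hf hif => ?_⟩
    simp only [Set.mem_iInter, Finset.mem_filter] at hh
    exact hh f ⟨hf, hif⟩
  choose h hh using key
  obtain ⟨f, hf, hfS⟩ := hF (Q.image h) (Finset.card_image_le.trans (by omega))
  exact hh (i f⁻¹) f hf rfl (hfS _ (Finset.mem_image_of_mem _ (hiQ _)))

/-- The largest right ideal contained in the closure of `A`. -/
def core (A : Set G) : Set (Ultrafilter G) := {p | ∀ q : Ultrafilter G, A ∈ p * q}

theorem mul_pure_one (p : Ultrafilter G) : p * (pure 1 : Ultrafilter G) = p := by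
  apply Ultrafilter.ext
  intro s
  rw [mem_mul_iff]
  have : {g : G | {h : G | g * h ∈ s} ∈ (pure 1 : Ultrafilter G)} = s := by
    ext g
    simp [Ultrafilter.mem_pure]
  rw [this]

theorem mem_of_mem_core {A : Set G} {p : Ultrafilter G} (hp : p ∈ core A) : A ∈ p := by
  have := hp (pure 1)
  rwa [mul_pure_one] at this

theorem isClosed_core (A : Set G) : IsClosed (core A) := by
  have : core A = ⋂ q : Ultrafilter G, (fun p => p * q) ⁻¹' {p | A ∈ p} := by
    ext p; simp [core]
  rw [this]
  exact isClosed_iInter fun q =>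
    (ultrafilter_isClosed_basic A).preimage (Ultrafilter.continuous_mul_left q)

theorem core_nonempty {A : Set G} (hA : CompletelySyndetic A) : (core A).Nonempty := by
  classical
  obtain ⟨p, hp⟩ := Ultrafilter.exists_ultrafilter_of_finite_inter_nonempty
    (Set.range fun q : Ultrafilter G => {g : G | {h : G | g * h ∈ A} ∈ q}) (by
      intro T hT
      have hT' : ∀ B : Set G, ∃ q : Ultrafilter G, B ∈ T → {g : G | {h : G | g * h ∈ A} ∈ q} = B := by
        intro B
        by_cases hB : B ∈ T
        · obtain ⟨q, hq⟩ := hT hB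
          exact ⟨q, fun _ => hq⟩
        · exact ⟨pure 1, fun h => absurd h hB⟩
      choose φ hφ using hT'
      obtain ⟨g, hg⟩ := fip hA (T.image φ)
      refine ⟨g, ?_⟩
      rw [Set.mem_sInter]
      intro B hB
      have h1 := hg (φ B) (Finset.mem_image_of_mem _ hB)
      rw [← hφ B hB]
      exact h1)
  exact ⟨p, fun q => hp ⟨q, rfl⟩⟩

theorem isClosedRightIdeal_core {A : Set G} (hA : CompletelySyndetic A) :
    IsClosedRightIdeal (core A) := by
  refine ⟨core_nonempty hA, isClosed_core A, fun p hp q r => ?_⟩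
  rw [mul_assoc]
  exact hp (q * r)

/-- Every closed right ideal contains a minimal closed right ideal. -/
theorem exists_minimal {R : Set (Ultrafilter G)} (hR : IsClosedRightIdeal R) :
    ∃ R' : Set (Ultrafilter G), R' ⊆ R ∧ IsMinimalClosedRightIdeal R' := by
  obtain ⟨R', hR'R, hmin⟩ := zorn_superset_nonempty
    {R : Set (Ultrafilter G) | IsClosedRightIdeal R} (by
      intro c hc hchain hne
      refine ⟨⋂₀ c, ⟨?_, ?_, ?_⟩, fun s hs => Set.sInter_subset_of_mem hs⟩
      · obtain ⟨R0, hR0⟩ := hne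
        have : Nonempty c := ⟨⟨R0, hR0⟩⟩
        refine IsCompact.nonempty_sInter_of_directed_nonempty_isCompact_isClosed ?_ ?_ ?_ ?_
        · exact IsChain.directedOn hchain.symm
        · exact fun s hs => (hc hs).1
        · exact fun s hs => (hc hs).2.1.isCompact
        · exact fun s hs => (hc hs).2.1
      · exact isClosed_sInter fun s hs => (hc hs).2.1
      · intro p hp q s hs
        exact (hc hs).2.2 p (hp s hs) q) R hR
  refine ⟨R', hR'R, hmin.prop, fun R'' h1 h2 => ?_⟩
  exact hmin.eq_of_subset h1 h2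

/-- Infinitely many pairwise disjoint completely syndetic sets give infinitely many minimal closed
right ideals. -/
theorem infinite_minimal (A : ℕ → Set G) (hd : Pairwise fun i j => Disjoint (A i) (A j))
    (hA : ∀ i, CompletelySyndetic (A i)) :
    {R : Set (Ultrafilter G) | IsMinimalClosedRightIdeal R}.Infinite := by
  have h1 : ∀ i, ∃ R : Set (Ultrafilter G), R ⊆ core (A i) ∧ IsMinimalClosedRightIdeal R :=
    fun i => exists_minimal (isClosedRightIdeal_core (hA i))
  choose R hR hRm using h1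
  refine Set.infinite_of_injective_forall_mem (f := R) ?_ hRm
  intro i j hij
  by_contra hne
  obtain ⟨p, hp⟩ := (hRm i).1.1
  have h2 := mem_of_mem_core (hR i hp)
  have h3 := mem_of_mem_core (hR j (hij ▸ hp))
  obtain ⟨g, hg⟩ := Ultrafilter.nonempty_of_mem (Filter.inter_mem h2 h3)
  exact Set.disjoint_left.1 (hd hne) hg.1 hg.2

end Q102.CS
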