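import Mathlib
import Pool.Agent.Q102.CS.Beta

/-!
# Ladders produce pairwise disjoint completely syndetic sets
-/

namespace Q102.CS

open Filter

/-- A ladder in a group `G`. -/
structure Ladder (G : Type*) [Group G] where
  E : ℕ → Subgroup G
  T : ℕ → Subgroup G
  M : ℕ → ℕ → Set G
  C : ℕ → ℕ → G
  mono : Monotone E
  conj : ∀ l j, ∀ d ∈ E j, ∀ t ∈ T l, d * t * d⁻¹ ∈ T l
  inv : ∀ l l' k, l < l' → ∀ t ∈ T l, ∀ s ∈ M l' k, t * s ∈ M l' k
  sep : ∀ l k k' s d, d ∈ E l → s ∈ M l k → d * s ∈ M l k' → d = 1 ∧ k = k'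
  memC : ∀ j i, i ≤ j → C j i ∈ E (j + 1)
  injC : ∀ j i i', i ≤ j → i' ≤ j → ∀ e ∈ E j, ∀ e' ∈ E j, e * C j i = e' * C j i' → i = i'
  move : ∀ l, ∃ F : Finset G, (∀ t ∈ F, t ∈ T l) ∧ ∀ S : Finset G, S.card ≤ l → ∀ k < l,
    ∃ t ∈ F, ∀ s ∈ S, t * s ∈ M l k

/-- A pigeonhole principle. -/
theorem exists_good {α : Type*} (S : Finset α) (j : ℕ) (hS : S.card ≤ j) (bad : α → ℕ → Prop)
    (h : ∀ s ∈ S, ∀ i ≤ j, ∀ i' ≤ j, bad s i → bad s i' → i = i') :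
    ∃ i ≤ j, ∀ s ∈ S, ¬ bad s i := by
  classical
  by_contra hcon
  push Not at hcon
  obtain ⟨s0, -, -⟩ := hcon 0 (Nat.zero_le _)
  have hcon' : ∀ i : ℕ, ∃ s : α, i ≤ j → s ∈ S ∧ bad s i := by
    intro i
    by_cases hi : i ≤ j
    · obtain ⟨s, hs, hb⟩ := hcon i hi
      exact ⟨s, fun _ => ⟨hs, hb⟩⟩
    · exact ⟨s0, fun h => absurd h hi⟩
  choose f hf using hcon'
  have h1 : (Finset.range (j + 1)).card ≤ S.card := by
    refine Finset.card_le_card_of_injOn f ?_ ?_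
    · intro i hi
      exact (hf i (by simpa [Nat.lt_succ_iff] using hi)).1
    · intro i hi i' hi' hii
      simp only [Finset.coe_range, Set.mem_Iio, Nat.lt_succ_iff] at hi hi'
      exact h (f i) (hf i hi).1 i hi i' hi' (hf i hi).2 (hii ▸ (hf i' hi').2)
  rw [Finset.card_range] at h1
  omega

namespace Ladder

variable {G : Type*} [Group G] (L : Ladder G)

/-- The pruned sets `M'_l`, for a fixed bound `N` on the levels. -/
def P (N : ℕ) (l : ℕ) (s : G) : Prop :=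
  (∃ k, s ∈ L.M l k) ∧ ∀ l', ∀ (_ : l < l') (_ : l' ≤ N), ∀ d ∈ L.E l, ¬ P N l' (d * s)
termination_by N - l
decreasing_by omega

theorem P_iff (N l : ℕ) (s : G) : L.P N l s ↔
    (∃ k, s ∈ L.M l k) ∧ ∀ l', l < l' → l' ≤ N → ∀ d ∈ L.E l, ¬ L.P N l' (d * s) := by
  rw [P]

theorem P_inv (N : ℕ) : ∀ m l l' : ℕ, N - l' ≤ m → l < l' → ∀ t ∈ L.T l, ∀ s, L.P N l' s →
    L.P N l' (t * s) := by
  intro m
  induction m with
  | zero =>
    intro l l' hm hll t ht s hs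
    rw [P_iff] at hs ⊢
    obtain ⟨⟨k, hk⟩, _⟩ := hs
    refine ⟨⟨k, L.inv l l' k hll t ht s hk⟩, fun l'' h1 h2 => ?_⟩
    omega
  | succ m ih =>
    intro l l' hm hll t ht s hs
    rw [P_iff] at hs ⊢
    obtain ⟨⟨k, hk⟩, h⟩ := hs
    refine ⟨⟨k, L.inv l l' k hll t ht s hk⟩, fun l'' h1 h2 d hd hP => ?_⟩
    refine h l'' h1 h2 d hd ?_
    have ht' : (d * t * d⁻¹)⁻¹ ∈ L.T l := inv_mem (L.conj l l' d hd t ht)
    have h3 := ih l l'' (by omega) (by omega) _ ht' _ hP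
    have h4 : (d * t * d⁻¹)⁻¹ * (d * (t * s)) = d * s := by group
    rwa [h4] at h3

/-- Uniqueness: at most one `d ∈ E (j+1)` moves `s` into a pruned set of level `> j`. -/
theorem P_uniq (N j : ℕ) (s d d' : G) (hd : d ∈ L.E (j + 1)) (hd' : d' ∈ L.E (j + 1))
    (l l' : ℕ) (hl : j < l) (hl' : j < l') (hlN : l ≤ N) (hlN' : l' ≤ N)
    (h : L.P N l (d * s)) (h' : L.P N l' (d' * s)) : d = d' := by
  wlog hll : l ≤ l' generalizing l l' d d'
  · exact (this d' d hd' hd l' l hl' hl hlN' hlN h' h (le_of_not_ge hll)).symm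
  have hmem : d' * d⁻¹ ∈ L.E l := L.mono hl (mul_mem hd' (inv_mem hd))
  have heq : d' * s = (d' * d⁻¹) * (d * s) := by group
  rcases hll.eq_or_lt with rfl | hlt
  · rw [P_iff] at h h'
    obtain ⟨⟨k, hk⟩, _⟩ := h
    obtain ⟨⟨k', hk'⟩, _⟩ := h'
    rw [heq] at hk'
    have := (L.sep l k k' _ _ hmem hk hk').1
    exact (mul_inv_eq_one.1 this).symm
  · rw [P_iff] at h
    exact absurd (heq ▸ h') (h.2 l' hlt hlN' _ hmem)

/-- The finite set moving `S` into the pruned set of level `j`. -/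
theorem exists_move (j : ℕ) : ∃ F : Finset G, ∀ N, j ≤ N → ∀ S : Finset G, S.card ≤ j →
    ∀ k < j, ∃ f ∈ F, ∀ s ∈ S, L.P N j (f * s) ∧ f * s ∈ L.M j k := by
  classical
  obtain ⟨F, hFT, hF⟩ := L.move j
  refine ⟨(F ×ˢ Finset.range (j + 1)).image (fun p => p.1 * L.C j p.2), fun N hN S hS k hk => ?_⟩
  -- choose the index `i`
  obtain ⟨i, hij, hi⟩ := exists_good S j hS
    (fun s i => ∃ e ∈ L.E j, ∃ l, j < l ∧ l ≤ N ∧ L.P N l (e * L.C j i * s)) (by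
      rintro s hs i hi i' hi' ⟨e, he, l, hl, hlN, h⟩ ⟨e', he', l', hl', hlN', h'⟩
      have h1 := L.P_uniq N j s (e * L.C j i) (e' * L.C j i')
        (mul_mem (L.mono (Nat.le_succ j) he) (L.memC j i hi))
        (mul_mem (L.mono (Nat.le_succ j) he') (L.memC j i' hi')) l l' hl hl' hlN hlN' h h'
      exact L.injC j i i' hi hi' e he e' he' h1)
  obtain ⟨t, ht, htS⟩ := hF (S.image (fun s => L.C j i * s))
    (Finset.card_image_le.trans hS) k hk
  refine ⟨t * L.C j i, Finset.mem_image.2 ⟨(t, i), Finset.mk_mem_product ht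
    (Finset.mem_range.2 (by omega)), rfl⟩, fun s hs => ?_⟩
  have h1 : t * L.C j i * s ∈ L.M j k := by
    rw [mul_assoc]; exact htS _ (Finset.mem_image_of_mem _ hs)
  refine ⟨?_, h1⟩
  rw [P_iff]
  refine ⟨⟨k, h1⟩, fun l' hl' hlN' e he hP => ?_⟩
  apply hi s hs
  refine ⟨e, he, l', hl', hlN', ?_⟩
  have ht' : (e * t * e⁻¹)⁻¹ ∈ L.T j := inv_mem (L.conj j j e he t (hFT t ht))
  have h3 := L.P_inv N _ j l' le_rfl hl' _ ht' _ hP
  have h4 : (e * t * e⁻¹)⁻¹ * (e * (t * L.C j i * s)) = e * L.C j i * s := by group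
  rwa [h4] at h3

/-- The sets `A^k_N`. -/
def AN (N k : ℕ) : Set G := {s | ∃ l, k < l ∧ l ≤ N ∧ L.P N l s ∧ s ∈ L.M l k}

theorem AN_disjoint (N k k' : ℕ) (s : G) (h : s ∈ L.AN N k) (h' : s ∈ L.AN N k') : k = k' := by
  obtain ⟨l, -, hl2, hP, hM⟩ := h
  obtain ⟨l', -, hl2', hP', hM'⟩ := h'
  have hll : l = l' := by
    rcases lt_trichotomy l l' with hlt | rfl | hlt
    · rw [P_iff] at hP
      exact absurd (by simpa using hP') (hP.2 l' hlt hl2' 1 (one_mem _))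
    · rfl
    · rw [P_iff] at hP'
      exact absurd (by simpa using hP) (hP'.2 l hlt hl2 1 (one_mem _))
  subst hll
  exact (L.sep l k k' s 1 (one_mem _) hM (by simpa using hM')).2

/-- The limit sets. -/
def A (k : ℕ) : Set G := {s | ∀ᶠ N in (hyperfilter ℕ : Filter ℕ), s ∈ L.AN N k}

theorem A_disjoint : Pairwise fun k k' => Disjoint (L.A k) (L.A k') := by
  intro k k' hne
  rw [Set.disjoint_left]
  intro s h h'
  obtain ⟨N, h1, h2⟩ := (h.and h').exists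
  exact hne (L.AN_disjoint N k k' s h1 h2)

theorem A_completelySyndetic (k : ℕ) : CompletelySyndetic (L.A k) := by
  classical
  intro n _
  rw [nsyndetic_iff]
  obtain ⟨F, hF⟩ := L.exists_move (max n (k + 1))
  refine ⟨F.image (fun f => f⁻¹), fun S hS => ?_⟩
  have h1 : ∀ᶠ N in (hyperfilter ℕ : Filter ℕ), ∃ f ∈ F, ∀ s ∈ S, f * s ∈ L.AN N k := by
    have h2 : ∀ᶠ N in (hyperfilter ℕ : Filter ℕ), max n (k + 1) ≤ N :=
      Nat.hyperfilter_le_atTop (eventually_ge_atTop _)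
    filter_upwards [h2] with N hN
    obtain ⟨f, hf, h⟩ := hF N hN S (hS.trans (le_max_left _ _)) k (by omega)
    exact ⟨f, hf, fun s hs => ⟨_, by omega, hN, (h s hs).1, (h s hs).2⟩⟩
  have h3 : ∃ f ∈ F, ∀ᶠ N in (hyperfilter ℕ : Filter ℕ), ∀ s ∈ S, f * s ∈ L.AN N k := by
    by_contra hcon
    push Not at hcon
    have h4 : ∀ f ∈ F, ∀ᶠ N in (hyperfilter ℕ : Filter ℕ), ¬ ∀ s ∈ S, f * s ∈ L.AN N k := by
      intro f hf
      filter_upwards [hcon f hf] with N hN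
      push Not
      exact hN
    have h5 := (Filter.eventually_all_finset F).2 h4
    obtain ⟨N, ⟨f, hf, hN⟩, hN'⟩ := (h1.and h5).exists
    exact hN' f hf hN
  obtain ⟨f, hf, h⟩ := h3
  refine ⟨f⁻¹, Finset.mem_image_of_mem _ hf, fun s hs => ?_⟩
  rw [inv_inv]
  exact h.mono fun N hN => hN s hs

end Ladder

end Q102.CS
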