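import Mathlib
import Pool.Agent.Q102.CS.Ladder

/-!
# The Heisenberg group of infinite rank over the field with two elements
-/

namespace Q102.CS

/-- The triples `(v, w, z)`: a vector `v` indexed by rows, a vector `w` indexed by columns and a
matrix `z`, all finitely supported, over the field with two elements. -/
@[ext] structure HG (R C : Type) where
  v : R →₀ ZMod 2
  w : C →₀ ZMod 2
  z : R × C →₀ ZMod 2

variable {R C : Type}

/-- The matrix `v ⊗ w`. -/
noncomputable def tens (v : R →₀ ZMod 2) (w : C →₀ ZMod 2) : R × C →₀ ZMod 2 :=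
  Finsupp.onFinset (v.support ×ˢ w.support) (fun p => v p.1 * w p.2) (by
    intro p hp
    rw [Finset.mem_product, Finsupp.mem_support_iff, Finsupp.mem_support_iff]
    exact ⟨left_ne_zero_of_mul hp, right_ne_zero_of_mul hp⟩)

@[simp] theorem tens_apply (v : R →₀ ZMod 2) (w : C →₀ ZMod 2) (p : R × C) :
    tens v w p = v p.1 * w p.2 := rfl

namespace HG

noncomputable instance : Mul (HG R C) :=
  ⟨fun g h => ⟨g.v + h.v, g.w + h.w, g.z + h.z + tens g.v h.w⟩⟩

noncomputable instance : One (HG R C) := ⟨⟨0, 0, 0⟩⟩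

noncomputable instance : Inv (HG R C) := ⟨fun g => ⟨-g.v, -g.w, -g.z + tens g.v g.w⟩⟩

@[simp] theorem mul_v (g h : HG R C) : (g * h).v = g.v + h.v := rfl
@[simp] theorem mul_w (g h : HG R C) : (g * h).w = g.w + h.w := rfl
@[simp] theorem mul_z (g h : HG R C) : (g * h).z = g.z + h.z + tens g.v h.w := rfl
@[simp] theorem one_v : (1 : HG R C).v = 0 := rfl
@[simp] theorem one_w : (1 : HG R C).w = 0 := rfl
@[simp] theorem one_z : (1 : HG R C).z = 0 := rfl
@[simp] theorem inv_v (g : HG R C) : (g⁻¹).v = -g.v := rfl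
@[simp] theorem inv_w (g : HG R C) : (g⁻¹).w = -g.w := rfl
@[simp] theorem inv_z (g : HG R C) : (g⁻¹).z = -g.z + tens g.v g.w := rfl

noncomputable instance : Group (HG R C) where
  mul_assoc a b c := by
    ext p
    · simp [add_assoc]
    · simp [add_assoc]
    · simp; ring
  one_mul a := by ext p <;> simp
  mul_one a := by ext p <;> simp
  inv_mul_cancel a := by
    ext p
    · simp
    · simp
    · simp [CharTwo.add_self_eq_zero]

instance [Countable R] [Countable C] : Countable (HG R C) := by
  have hinj : Function.Injective (fun g : HG R C => (g.v, g.w, g.z)) := by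
    intro g h hgh
    simp only [Prod.mk.injEq] at hgh
    exact HG.ext hgh.1 hgh.2.1 hgh.2.2
  exact hinj.countable

/-- The projection to the abelian quotient. -/
noncomputable def proj : HG R C →* Multiplicative ((R →₀ ZMod 2) × (C →₀ ZMod 2)) where
  toFun g := Multiplicative.ofAdd (g.v, g.w)
  map_one' := rfl
  map_mul' _ _ := rfl

theorem ker_le_center : (proj : HG R C →* _).ker ≤ Subgroup.center (HG R C) := by
  intro g hg
  rw [MonoidHom.mem_ker] at hg
  have h1 : (g.v, g.w) = (0, 0) := hg
  rw [Prod.mk.injEq] at h1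
  rw [Subgroup.mem_center_iff]
  intro h
  ext p
  · simp [h1.1]
  · simp [h1.2]
  · simp [h1.1, h1.2, add_comm]

theorem isNilpotent : Group.IsNilpotent (HG R C) :=
  Subgroup.isNilpotent_of_ker_le_center proj ker_le_center

theorem nilpotencyClass_le : Group.nilpotencyClass (HG R C) ≤ 2 := by
  have h1 := Group.nilpotencyClass_le_of_ker_le_center (G := HG R C) proj ker_le_center
  have h2 := CommGroup.nilpotencyClass_le_one
    (G := Multiplicative ((R →₀ ZMod 2) × (C →₀ ZMod 2)))
  omega

/-- No subgroup of finite index is commutative. -/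
theorem not_virtually_abelian [Infinite R] [Infinite C] (H : Subgroup (HG R C))
    (hH : H.FiniteIndex) : ¬ ∀ x ∈ H, ∀ y ∈ H, x * y = y * x := by
  classical
  intro hcomm
  have hfin : Finite (HG R C ⧸ H) := inferInstance
  obtain ⟨r, r', hr, hrr⟩ := Finite.exists_ne_map_eq_of_infinite
    (fun r : R => (QuotientGroup.mk (⟨Finsupp.single r 1, 0, 0⟩ : HG R C) : HG R C ⧸ H))
  obtain ⟨c, c', hc, hcc⟩ := Finite.exists_ne_map_eq_of_infinite
    (fun c : C => (QuotientGroup.mk (⟨0, Finsupp.single c 1, 0⟩ : HG R C) : HG R C ⧸ H))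
  rw [QuotientGroup.eq] at hrr hcc
  have h1 := hcomm _ hrr _ hcc
  have h2 := congrArg (fun g => g.z (r, c)) h1
  simp [hr, hc] at h2

end HG

end Q102.CS
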