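import Mathlib
import Pool.Agent.Q102.CS.Group

/-!
# A ladder in the Heisenberg group of infinite rank
-/

namespace Q102.CS

/-- A register: its level, its code `δ`, its label and its number. -/
abbrev Reg := ℕ × (ℕ →₀ ZMod 2) × ℕ × ℕ

/-- The rows: the pairs of a register and a natural number. -/
abbrev Row := Reg × ℕ

/-- The group of the counterexample. -/
abbrev G0 := HG Row ℕ

/-- The numbers of visible columns. -/
def ee (l : ℕ) : ℕ := (l + 1) ^ 2

theorem ee_pos (l : ℕ) : 0 < ee l := by unfold ee; positivity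

theorem ee_mono : Monotone ee := fun a b h => Nat.pow_le_pow_left (by omega) 2

theorem ee_succ (j i : ℕ) (h : i ≤ j) : ee j + i < ee (j + 1) := by
  unfold ee; nlinarith

open Classical in
/-- The registers of level `l`. -/
noncomputable def regs (l : ℕ) : Finset Reg :=
  {l} ×ˢ (Finset.finsupp (Finset.range (ee l)) (fun _ => Finset.univ)) ×ˢ Finset.range l ×ˢ
    Finset.range l

theorem mem_regs (l : ℕ) (ρ : Reg) : ρ ∈ regs l ↔
    ρ.1 = l ∧ (∀ c, ee l ≤ c → ρ.2.1 c = 0) ∧ ρ.2.2.1 < l ∧ ρ.2.2.2 < l := by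
  classical
  unfold regs
  simp only [Finset.mem_product, Finset.mem_singleton, Finset.mem_finsupp_iff, Finset.mem_univ,
    implies_true, and_true, Finset.mem_range]
  constructor
  · rintro ⟨h1, h2, h3⟩
    refine ⟨h1, fun c hc => ?_, h3⟩
    by_contra hne
    have := h2 (Finsupp.mem_support_iff.2 hne)
    rw [Finset.mem_range] at this
    omega
  · rintro ⟨h1, h2, h3⟩
    refine ⟨h1, fun c hc => ?_, h3⟩
    rw [Finsupp.mem_support_iff] at hc
    rw [Finset.mem_range]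
    by_contra hne
    exact hc (h2 c (by omega))

/-- The register `ρ` is active for `s` at level `l`: the visible part of the matrix of `s`
on it vanishes. -/
def Active (l : ℕ) (s : G0) (ρ : Reg) : Prop := ∀ i ≤ l, ∀ c < ee l, s.z ((ρ, i), c) = 0

/-- The sets `M_l^k`. -/
def MM (l k : ℕ) : Set G0 :=
  {s | (∃ ρ ∈ regs l, Active l s ρ) ∧
    ∀ ρ ∈ regs l, Active l s ρ → (∀ c < ee l, ρ.2.1 c = s.w c) ∧ ρ.2.2.1 = k}

/-- The finite subgroups `E_l`. -/
noncomputable def EE (l : ℕ) : Subgroup G0 where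
  carrier := {g | g.v = 0 ∧ g.z = 0 ∧ ∀ c, ee l ≤ c → g.w c = 0}
  one_mem' := ⟨rfl, rfl, fun _ _ => rfl⟩
  mul_mem' := by
    rintro a b ⟨h1, h2, h3⟩ ⟨h4, h5, h6⟩
    refine ⟨by simp [h1, h4], ?_, fun c hc => by simp [h3 c hc, h6 c hc]⟩
    ext p
    simp [h1, h2, h5]
  inv_mem' := by
    rintro a ⟨h1, h2, h3⟩
    refine ⟨by simp [h1], ?_, fun c hc => by simp [h3 c hc]⟩
    ext p
    simp [h1, h2]

/-- The subgroups `T_l`. -/
noncomputable def TT (l : ℕ) : Subgroup G0 where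
  carrier := {g | g.w = 0 ∧ (∀ ρ : Reg, ∀ i, ρ.1 ≠ l → g.v (ρ, i) = 0) ∧
    ∀ ρ : Reg, ∀ i c, ρ.1 ≠ l → g.z ((ρ, i), c) = 0}
  one_mem' := ⟨rfl, fun _ _ _ => rfl, fun _ _ _ _ => rfl⟩
  mul_mem' := by
    rintro a b ⟨h1, h2, h3⟩ ⟨h4, h5, h6⟩
    refine ⟨by simp [h1, h4], fun ρ i h => by simp [h2 ρ i h, h5 ρ i h], fun ρ i c h => ?_⟩
    simp [h2 ρ i h, h3 ρ i c h, h6 ρ i c h]
  inv_mem' := by
    rintro a ⟨h1, h2, h3⟩
    refine ⟨by simp [h1], fun ρ i h => by simp [h2 ρ i h], fun ρ i c h => ?_⟩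
    simp [h2 ρ i h, h3 ρ i c h]

theorem mem_EE (l : ℕ) (g : G0) : g ∈ EE l ↔ g.v = 0 ∧ g.z = 0 ∧ ∀ c, ee l ≤ c → g.w c = 0 :=
  Iff.rfl

theorem mem_TT (l : ℕ) (g : G0) : g ∈ TT l ↔ g.w = 0 ∧
    (∀ ρ : Reg, ∀ i, ρ.1 ≠ l → g.v (ρ, i) = 0) ∧
    ∀ ρ : Reg, ∀ i c, ρ.1 ≠ l → g.z ((ρ, i), c) = 0 :=
  Iff.rfl

/-- The assignment on a single register. -/
theorem single_reg (l k : ℕ) (S : Finset G0) (hS : S.card ≤ l) (R : G0 → Reg)
    (hR1 : ∀ s ∈ S, ∀ s' ∈ S, R s = R s' → s = s')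
    (hR2 : ∀ s ∈ S, ∀ c < ee l, (R s).2.1 c = s.w c) (hR3 : ∀ s ∈ S, (R s).2.2.1 = k)
    (ρ : Reg) : ∃ (a : ℕ → ZMod 2) (γ : ℕ → ℕ → ZMod 2),
      (∀ s ∈ S, (∀ i ≤ l, ∀ c < ee l, γ i c + s.z ((ρ, i), c) + a i * s.w c = 0) →
        (∀ c < ee l, ρ.2.1 c = s.w c) ∧ ρ.2.2.1 = k) ∧
      (∀ s ∈ S, ρ = R s → ∀ i ≤ l, ∀ c < ee l, γ i c + s.z ((ρ, i), c) + a i * s.w c = 0) := by
  classical
  by_cases hρ : ∃ s ∈ S, ρ = R s
  · obtain ⟨s0, hs0, hρ0⟩ := hρ
    obtain ⟨i0, hi0, hgood⟩ := exists_good S l hS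
      (fun s i => (¬ ∀ c < ee l, s.w c = s0.w c) ∧ ∀ i' ≤ l, ∀ c < ee l,
        s.z ((ρ, i'), c) - s0.z ((ρ, i'), c) + (if i' = i then 1 else 0) * (s.w c - s0.w c) = 0)
      (by
        rintro s _ i hi i' _ ⟨h1, h2⟩ ⟨_, h4⟩
        by_contra hne
        apply h1
        intro c hc
        have h5 := h2 i hi c hc
        have h6 := h4 i hi c hc
        rw [if_pos rfl] at h5
        rw [if_neg hne, zero_mul, add_zero] at h6
        rw [h6, one_mul, zero_add, sub_eq_zero] at h5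
        exact h5)
    refine ⟨fun i => if i = i0 then 1 else 0,
      fun i c => -(s0.z ((ρ, i), c) + (if i = i0 then 1 else 0) * s0.w c), ?_, ?_⟩
    · intro s hs h
      have hagree : ∀ c < ee l, s.w c = s0.w c := by
        by_contra hna
        refine hgood s hs ⟨hna, fun i' hi' c hc => ?_⟩
        have := h i' hi' c hc
        simp only at this
        linear_combination this
      refine ⟨fun c hc => ?_, ?_⟩
      · rw [hagree c hc, hρ0]
        exact hR2 s0 hs0 c hc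
      · rw [hρ0]
        exact hR3 s0 hs0
    · intro s hs hρs i hi c hc
      have : s = s0 := hR1 s hs s0 hs0 (hρs.symm.trans hρ0)
      subst this
      ring
  · obtain ⟨i0, hi0, hgood⟩ := exists_good S l hS
      (fun s i => ∀ i' ≤ l, ∀ c < ee l,
        (if i' = i ∧ c = 0 then 1 else 0) + s.z ((ρ, i'), c) = 0)
      (by
        intro s _ i hi i' _ h2 h4
        by_contra hne
        have h5 := h2 i hi 0 (ee_pos l)
        have h6 := h4 i hi 0 (ee_pos l)
        rw [if_pos ⟨rfl, rfl⟩] at h5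
        rw [if_neg (fun h => hne h.1), zero_add] at h6
        rw [h6, add_zero] at h5
        exact one_ne_zero h5)
    refine ⟨fun _ => 0, fun i c => if i = i0 ∧ c = 0 then 1 else 0, ?_, ?_⟩
    · intro s hs h
      exfalso
      refine hgood s hs fun i' hi' c hc => ?_
      have := h i' hi' c hc
      rwa [zero_mul, add_zero] at this
    · intro s hs hρs
      exact absurd ⟨s, hs, hρs⟩ hρ

/-- The finitely many elements used at level `l`. -/
theorem exists_finset (l : ℕ) : ∃ F : Finset G0, (∀ t ∈ F, t ∈ TT l) ∧ ∀ g : G0,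
    g.w = 0 → (∀ p, g.v p ≠ 0 → p ∈ regs l ×ˢ Finset.range (l + 1)) →
    (∀ p, g.z p ≠ 0 → p ∈ (regs l ×ˢ Finset.range (l + 1)) ×ˢ Finset.range (ee l)) → g ∈ F := by
  classical
  refine ⟨((Finset.finsupp (regs l ×ˢ Finset.range (l + 1)) (fun _ => Finset.univ)) ×ˢ
    (Finset.finsupp ((regs l ×ˢ Finset.range (l + 1)) ×ˢ Finset.range (ee l))
      (fun _ => Finset.univ))).image (fun p => (⟨p.1, 0, p.2⟩ : G0)), ?_, ?_⟩
  · intro t ht
    rw [Finset.mem_image] at ht
    obtain ⟨⟨a, γ⟩, h, rfl⟩ := ht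
    rw [Finset.mem_product, Finset.mem_finsupp_iff, Finset.mem_finsupp_iff] at h
    obtain ⟨⟨h1, -⟩, ⟨h2, -⟩⟩ := h
    simp only at h1 h2
    refine ⟨rfl, fun ρ i hρ => ?_, fun ρ i c hρ => ?_⟩
    · by_contra hne
      have := h1 (Finsupp.mem_support_iff.2 hne)
      rw [Finset.mem_product, mem_regs] at this
      exact hρ this.1.1
    · by_contra hne
      have := h2 (Finsupp.mem_support_iff.2 hne)
      rw [Finset.mem_product, Finset.mem_product, mem_regs] at this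
      exact hρ this.1.1.1
  · intro g hw hv hz
    rw [Finset.mem_image]
    refine ⟨(g.v, g.z), ?_, HG.ext rfl hw.symm rfl⟩
    rw [Finset.mem_product, Finset.mem_finsupp_iff, Finset.mem_finsupp_iff]
    refine ⟨⟨fun p hp => hv p (Finsupp.mem_support_iff.1 hp), fun _ _ => Finset.mem_univ _⟩,
      ⟨fun p hp => hz p (Finsupp.mem_support_iff.1 hp), fun _ _ => Finset.mem_univ _⟩⟩

theorem move0 (l : ℕ) : ∃ F : Finset G0, (∀ t ∈ F, t ∈ TT l) ∧ ∀ S : Finset G0, S.card ≤ l →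
    ∀ k < l, ∃ t ∈ F, ∀ s ∈ S, t * s ∈ MM l k := by
  classical
  obtain ⟨F, hF1, hF2⟩ := exists_finset l
  refine ⟨F, hF1, fun S hS k hk => ?_⟩
  -- numbering of the elements of `S`
  let idx : G0 → ℕ := fun s => if h : s ∈ S then (S.equivFin ⟨s, h⟩).val else 0
  have hidx : ∀ s ∈ S, ∀ s' ∈ S, idx s = idx s' → s = s' := by
    intro s hs s' hs' h
    simp only [idx, dif_pos hs, dif_pos hs'] at h
    have h1 := S.equivFin.injective (Fin.ext h)
    exact congrArg Subtype.val h1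
  have hidxlt : ∀ s ∈ S, idx s < l := by
    intro s hs
    simp only [idx, dif_pos hs]
    exact (S.equivFin ⟨s, hs⟩).isLt.trans_le hS
  let R : G0 → Reg := fun s => (l, s.w.filter (· < ee l), k, idx s)
  have hR1 : ∀ s ∈ S, ∀ s' ∈ S, R s = R s' → s = s' := by
    intro s hs s' hs' h
    simp only [R, Prod.mk.injEq] at h
    exact hidx s hs s' hs' h.2.2.2
  have hR2 : ∀ s ∈ S, ∀ c < ee l, (R s).2.1 c = s.w c := by
    intro s _ c hc
    simp only [R]
    rw [Finsupp.filter_apply_pos (· < ee l) s.w hc]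
  have hRmem : ∀ s ∈ S, R s ∈ regs l := by
    intro s hs
    rw [mem_regs]
    refine ⟨rfl, fun c hc => ?_, hk, hidxlt s hs⟩
    simp only [R]
    rw [Finsupp.filter_apply_neg (· < ee l) s.w (by omega)]
  choose a γ h1 h2 using single_reg l k S hS R hR1 hR2 (fun _ _ => rfl)
  let v : Row →₀ ZMod 2 := Finsupp.onFinset (regs l ×ˢ Finset.range (l + 1))
    (fun p => if p ∈ regs l ×ˢ Finset.range (l + 1) then a p.1 p.2 else 0) (by
      intro p hp
      by_contra hne
      exact hp (if_neg hne))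
  let z : Row × ℕ →₀ ZMod 2 := Finsupp.onFinset
    ((regs l ×ˢ Finset.range (l + 1)) ×ˢ Finset.range (ee l))
    (fun p => if p ∈ (regs l ×ˢ Finset.range (l + 1)) ×ˢ Finset.range (ee l) then
      γ p.1.1 p.1.2 p.2 else 0) (by
      intro p hp
      by_contra hne
      exact hp (if_neg hne))
  have hv : ∀ ρ ∈ regs l, ∀ i ≤ l, v (ρ, i) = a ρ i := by
    intro ρ hρ i hi
    simp only [v, Finsupp.onFinset_apply]
    rw [if_pos]
    rw [Finset.mem_product, Finset.mem_range]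
    exact ⟨hρ, by simp only; omega⟩
  have hz : ∀ ρ ∈ regs l, ∀ i ≤ l, ∀ c < ee l, z ((ρ, i), c) = γ ρ i c := by
    intro ρ hρ i hi c hc
    simp only [z, Finsupp.onFinset_apply]
    rw [if_pos]
    rw [Finset.mem_product, Finset.mem_product, Finset.mem_range, Finset.mem_range]
    exact ⟨⟨hρ, by simp only; omega⟩, hc⟩
  refine ⟨⟨v, 0, z⟩, hF2 _ rfl ?_ ?_, ?_⟩
  · intro p hp
    by_contra hne
    exact hp (if_neg hne)
  · intro p hp
    by_contra hne
    exact hp (if_neg hne)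
  · intro s hs
    have hcont : ∀ ρ ∈ regs l, Active l ((⟨v, 0, z⟩ : G0) * s) ρ ↔
        ∀ i ≤ l, ∀ c < ee l, γ ρ i c + s.z ((ρ, i), c) + a ρ i * s.w c = 0 := by
      intro ρ hρ
      unfold Active
      refine forall₂_congr fun i hi => forall₂_congr fun c hc => ?_
      rw [HG.mul_z, Finsupp.add_apply, Finsupp.add_apply, tens_apply, hz ρ hρ i hi c hc,
        hv ρ hρ i hi]
    refine ⟨⟨R s, hRmem s hs, ?_⟩, fun ρ hρ hact => ?_⟩
    · rw [hcont _ (hRmem s hs)]
      exact h2 (R s) s hs rfl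
    · rw [hcont _ hρ] at hact
      have := h1 ρ s hs hact
      simpa using this

/-- The ladder. -/
noncomputable def ladder : Ladder G0 where
  E := EE
  T := TT
  M := MM
  C := fun j i => ⟨0, Finsupp.single (ee j + i) 1, 0⟩
  mono := by
    intro a b hab g hg
    exact ⟨hg.1, hg.2.1, fun c hc => hg.2.2 c ((ee_mono hab).trans hc)⟩
  conj := by
    intro l j d hd t ht
    obtain ⟨h1, h2, h3⟩ := hd
    obtain ⟨h4, h5, h6⟩ := ht
    refine ⟨?_, fun ρ i h => ?_, fun ρ i c h => ?_⟩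
    · simp [h4]
    · simp [h1, h5 ρ i h]
    · simp [h1, h2, h4, h5 ρ i h, h6 ρ i c h]
  inv := by
    intro l l' k hll t ht s hs
    obtain ⟨h4, h5, h6⟩ := ht
    obtain ⟨⟨ρ, hρ, hact⟩, hall⟩ := hs
    have hiff : ∀ ρ ∈ regs l', Active l' (t * s) ρ ↔ Active l' s ρ := by
      intro ρ hρ
      have hne : ρ.1 ≠ l := by rw [((mem_regs _ _).1 hρ).1]; omega
      unfold Active
      refine forall₂_congr fun i hi => forall₂_congr fun c hc => ?_
      simp [h5 ρ i hne, h6 ρ i c hne]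
    refine ⟨⟨ρ, hρ, (hiff ρ hρ).2 hact⟩, fun ρ hρ h => ?_⟩
    have := hall ρ hρ ((hiff ρ hρ).1 h)
    simpa [h4] using this
  sep := by
    intro l k k' s d hd hs hs'
    obtain ⟨h1, h2, h3⟩ := hd
    obtain ⟨⟨ρ, hρ, hact⟩, hall⟩ := hs
    obtain ⟨-, hall'⟩ := hs'
    have hact' : Active l (d * s) ρ := by
      intro i hi c hc
      simp [h1, h2, hact i hi c hc]
    obtain ⟨h4, h5⟩ := hall ρ hρ hact
    obtain ⟨h6, h7⟩ := hall' ρ hρ hact'
    refine ⟨HG.ext h1 ?_ h2, h5.symm.trans h7⟩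
    ext c
    rw [HG.one_w, Finsupp.zero_apply]
    by_cases hc : c < ee l
    · have h8 := h4 c hc
      have h9 := h6 c hc
      rw [h8, HG.mul_w, Finsupp.add_apply] at h9
      exact right_eq_add.1 h9
    · exact h3 c (by omega)
  memC := by
    intro j i hij
    refine ⟨rfl, rfl, fun c hc => ?_⟩
    have := ee_succ j i hij
    simp only
    rw [Finsupp.single_apply, if_neg (by omega)]
  injC := by
    intro j i i' hi hi' e he e' he' h
    by_contra hne
    have h1 := congrArg (fun g : G0 => g.w (ee j + i)) h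
    simp only [HG.mul_w, Finsupp.add_apply] at h1
    rw [he.2.2 (ee j + i) (by omega), he'.2.2 (ee j + i) (by omega), Finsupp.single_eq_same,
      Finsupp.single_apply, if_neg (by omega)] at h1
    simp at h1
  move := move0

end Q102.CS
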